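import Pool.Agent.R852.CP.Rat

set_option autoImplicit false
set_option linter.unusedVariables false

/-! # The Poincare series of compositions with generic coefficients, every prime -/

namespace Pool.Agent.R852.CP

open MvPolynomial Pool.Agent.W206.CU Pool.Agent.TH216.MF Pool.Agent.Y229.PA
open Pool.Agent.W425.ND (spa)
open Pool.Agent.W425.MM (NonB)
open Pool.Agent.W425.SV (NP)
open Pool.Agent.W426.SM (gord IsRay face)
open Pool.Agent.H628R4.TP (IsBFunction)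
open Pool.Agent.TH216.EP (ConcF LevOK)
open Pool.Agent.TH216.HD (InPoly ordA lev NonB1)
open Pool.Agent.R852 (SimpleAt hypS_of_simpleAt poincare_of_pole Rational)

variable {n κ r s : ℕ}

theorem cmpP (hr : 0 < r) (hκ : 0 < κ) (m : Fin r → Fin n ⊕ Fin κ → ℕ)
    (hm : Function.Injective m) (hm0 : ∀ j, m j ≠ 0) (w : Fin s → Fin n → ℕ) (ι : Fin s → Fin κ)
    (hw : Function.Injective fun l => (ι l, w l)) (h₀ : MvPolynomial (Fin n ⊕ Fin κ) ℤ)
    (h : Fin κ → MvPolynomial (Fin n) ℤ)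
    (hS : ∀ i, h i = 0 ∨ ∀ u ∈ h₀.support, u (Sum.inr i) = 0)
    (hh : ∀ u ∈ (fixH h₀ h).support, InPoly (expG m w ι) u ∧ ∀ J, ¬ ∀ I, u I = expG m w ι J I) :
    ∃ g : MvPolynomial (Fin r ⊕ Fin s) ℚ, g ≠ 0 ∧ ∀ (a : Fin r → ℤ) (b : Fin s → ℤ),
      eval (fun J => ((Sum.elim a b J : ℤ) : ℚ)) g ≠ 0 →
      (MvPolynomial.map (Int.castRingHom ℂ) (compH m w ι h₀ h a b)).totalDegree ≠ 0 →
      ∀ (p : ℕ) [Fact p.Prime], Rational p (compH m w ι h₀ h a b) ∧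
        ∀ (T₀ : ℂ) (μ : ℕ), 0 < μ → IsPoleOfOrder (poincare p (compH m w ι h₀ h a b)) T₀ μ →
        ∀ β : Polynomial ℂ, β ≠ 0 →
          IsBFunction (MvPolynomial.map (Int.castRingHom ℂ) (compH m w ι h₀ h a b)) β →
          ∃ σ : ℚ, -Real.log ‖T₀‖ / Real.log p = -(σ : ℝ) ∧
            ((σ = 1 ∨ (∃ e : Fin (n + (κ + κ)) → ℕ, 0 < ordA (expG m w ι) e ∧
                NonB1 (expG m w ι) False e ∧ lev (expG m w ι) e = σ + κ) ∨
              SimpleAt (expG m w ι) (fixH h₀ h) (σ + κ)) →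
                β.eval ((-Real.log ‖T₀‖ / Real.log p : ℝ) : ℂ) = 0) ∧
            (SimpleAt (expG m w ι) (fixH h₀ h) (σ + κ) →
              μ ≤ β.rootMultiplicity ((-Real.log ‖T₀‖ / Real.log p : ℝ) : ℂ)) := by
  have hNP : ∀ u ∈ (fixH h₀ h).support, NP (expG m w ι) u := fun u hu => (hh u hu).1
  obtain ⟨g1, hg1, hgc⟩ := gen_ordT (by omega) (expG m w ι) (expG_inj hm hw) (expG_ne hm0)
    (fixH h₀ h) hNP (fun u hu => (hh u hu).2)
  obtain ⟨g2, hg2, hgr⟩ := gen_ratT (by omega) (expG m w ι) (expG_inj hm hw) (fixH h₀ h) hNP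
  obtain ⟨ty, tz, hy, hz, hty, htz, hgτ⟩ := exists_tor m ι (fun i => h i = 0)
    (mul_ne_zero hg1 hg2)
  refine ⟨aeval (par m ι ty tz) (g1 * g2), hgτ, fun a b hab hdeg p hp => ?_⟩
  rw [eval_par m w ι ty tz a b, map_mul] at hab
  have hinv := inv_fixH h₀ h hS hty htz
  have hconc := hgc _ (tor ty tz) (tor_ne hy hz) hinv (left_ne_zero_of_mul hab)
  have hrat := hgr _ (tor ty tz) (tor_ne hy hz) hinv (right_ne_zero_of_mul hab) p hp.out
  obtain ⟨ψ, hψ⟩ := comp_isoH m w ι h₀ h a b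
  have hL := levels_down (by omega) _ (expG_ne hm0) _ hNP hconc hκ hdeg ψ hψ
  have hfol : Fol (compH m w ι h₀ h a b) (Fin (n + (κ + κ))) κ
      (spa (expG m w ι) (coefG (κ := κ) a b) + fixH h₀ h) := by
    have h3 := (fol_chain (compH m w ι h₀ h a b)).iso _ _ ψ κ _
      (fol_stab (compH m w ι h₀ h a b) κ)
    rwa [hψ] at h3
  refine ⟨rat_down hfol p hrat, fun T₀ μ hμ hP β hβ0 hβ => ?_⟩
  obtain ⟨σ, h3, h4, h5⟩ := hL p hp.out _ μ hμ hP β hβ0 hβ
  refine ⟨σ, h3, fun h6 => ?_, fun h6 => ?_⟩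
  · rcases h6 with h6 | h6 | h6
    · rw [h3, h6]
      have h7 := (b_up hdeg hβ ψ hψ).1
      push_cast
      exact h7
    · exact h4 fun _ => Or.inr (Or.inl h6)
    · exact h4 fun _ => Or.inr (Or.inr (hypS_of_simpleAt (by omega) _ _ hNP _ h6))
  · exact h5 (hypS_of_simpleAt (by omega) _ _ hNP _ h6)

end Pool.Agent.R852.CP
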