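import Pool.Agent.Y229.PA.CmpH
import Pool.Agent.R852.FinA

set_option autoImplicit false
set_option linter.unusedVariables false

/-! Rationality of the Poincare series of compositions with generic coefficients, every prime. -/

namespace Pool.Agent.R852.CP

open MvPolynomial Pool.Agent.TH216.MF Pool.Agent.TH216.EP
open Pool.Agent.H628R4.TP Pool.Agent.W425.MM Pool.Agent.W425.GN
open Pool.Agent.W425.ND (spa)
open Pool.Agent.W426.SM (gord IsRay face)
open Pool.Agent.W206.CU (poincare IsPoleOfOrder pole_ne_zero)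
open Pool.Agent.W425.SV (NP)
open Pool.Agent.W425.PN (qpoly idn_of Idn)
open Pool.Agent.W427.SMC (igusaZeta)
open Pool.Agent.Y229.PA (Fol poin_fol nonD_scale)
open Pool.Agent.R852 (Rational rat_nd)

variable {r N : ℕ}

/-- Rationality, coefficients which are generic up to the torus. -/
theorem gen_ratT (hr : 0 < r) (v : Fin r → Fin N → ℕ) (hv : Function.Injective v)
    (h : MvPolynomial (Fin N) ℤ) (hh : ∀ w ∈ h.support, NP v w) :
    ∃ g : MvPolynomial (Fin r) ℚ, g ≠ 0 ∧ ∀ (c : Fin r → ℤ) (t : Fin N → ℚ), (∀ i, t i ≠ 0) →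
      (∀ w ∈ h.support, ∏ i, t i ^ w i = 1) →
      eval (fun j => (c j : ℚ) * ∏ i, t i ^ v j i) g ≠ 0 →
      ∀ p : ℕ, p.Prime → Rational p (spa v c + h) := by
  classical
  have hne : NeZero r := ⟨by omega⟩
  obtain ⟨g2, hg2, h2⟩ := gen_nonDF pF4 hr v (weZ h) (we_npZ v h hh)
    (fun l => ((wcZ h l : ℤ) : ℚ))
  have hg3 : (∏ j : Fin r, (X j : MvPolynomial (Fin r) ℚ)) ≠ 0 :=
    Finset.prod_ne_zero_iff.2 fun j _ => X_ne_zero j
  refine ⟨g2 * ∏ j : Fin r, (X j : MvPolynomial (Fin r) ℚ),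
    mul_ne_zero hg2 hg3, fun c t ht hht hc'' p hpp => ?_⟩
  set cQ : Fin r → ℚ := fun j => (c j : ℚ) with hcQ
  set cT : Fin r → ℚ := fun j => (c j : ℚ) * ∏ i, t i ^ v j i with hcT
  rw [map_mul] at hc''
  have hc' := left_ne_zero_of_mul hc''
  have hcne : ∀ j, c j ≠ 0 := by
    have h5 := right_ne_zero_of_mul hc''
    rw [map_prod] at h5
    intro j
    have h6 := Finset.prod_ne_zero_iff.1 h5 j (Finset.mem_univ j)
    rw [eval_X] at h6
    intro h7
    apply h6
    simp only [hcT]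
    rw [h7, Int.cast_zero, zero_mul]
  have hc : aeval (fun j => ((cT j : ℚ) : ℂ)) g2 ≠ 0 := by
    have h0 : aeval (fun j => ((cT j : ℚ) : ℂ)) g2 = ((eval cT g2 : ℚ) : ℂ) := by
      have h5 := aeval_algebraMap_apply ℂ cT g2
      exact h5
    rw [h0]
    exact_mod_cast hc'
  have hnd := h2 _ hc
  set m : Fin (r + h.support.card) → Fin N → ℕ := Fin.append v (weZ h) with hm
  set cc : Fin (r + h.support.card) → ℤ := Fin.append c (wcZ h) with hcc
  have hcast : (fun j => ((cc j : ℤ) : ℚ)) = Fin.append cQ (fun l => ((wcZ h l : ℤ) : ℚ)) :=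
    append_map (fun q : ℤ => (q : ℚ)) c (wcZ h)
  have hnq : NonD m (fun j => algebraMap ℚ ℂ ((cc j : ℤ) : ℚ)) := by
    have h3 := append_map (fun q : ℚ => (q : ℂ)) cQ (fun l => ((wcZ h l : ℤ) : ℚ))
    have h4 : (fun j => algebraMap ℚ ℂ ((cc j : ℤ) : ℚ)) =
        fun j => (((Fin.append cQ (fun l => ((wcZ h l : ℤ) : ℚ)) j : ℚ)) : ℂ) := by
      funext j
      rw [← hcast]
      rfl
    rw [h4, h3]
    refine nonD_scale (fun i => ((t i : ℚ) : ℂ)) (fun i => by exact_mod_cast ht i) ?_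
    have h5 : (fun j => Fin.append (fun j => ((cQ j : ℚ) : ℂ))
        (fun l => ((((wcZ h l : ℤ) : ℚ)) : ℂ)) j * ∏ i, ((t i : ℚ) : ℂ) ^ m j i) =
        Fin.append (fun j => ((cT j : ℚ) : ℂ)) (fun l => ((((wcZ h l : ℤ) : ℚ)) : ℂ)) := by
      funext j
      refine Fin.addCases (fun j => ?_) (fun l => ?_) j
      · rw [Fin.append_left, Fin.append_left, hm]
        simp only [Fin.append_left, hcQ, hcT]
        push_cast
        rfl
      · rw [Fin.append_right, Fin.append_right, hm]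
        simp only [Fin.append_right]
        have h6 := hht _ (h.support.equivFin.symm l).2
        have h7 : ∏ i, ((t i : ℚ) : ℂ) ^ weZ h l i = 1 := by
          unfold weZ
          exact_mod_cast h6
        rw [h7, mul_one]
    rw [h5]
    exact hnd
  have hid : ∀ u : Fin N → ℕ, Idn m (fun j => ((cc j : ℤ) : ℚ))
      (Finset.univ.filter fun j => ∑ i, u i * m j i = gord m u) := fun u =>
    idn_of m (fun j => ((cc j : ℤ) : ℚ)) hnq u
  have hccne : ∀ j, cc j ≠ 0 := by
    intro j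
    refine Fin.addCases (fun j => ?_) (fun l => ?_) j
    · rw [hcc, Fin.append_left]; exact hcne j
    · rw [hcc, Fin.append_right]
      exact mem_support_iff.1 (h.support.equivFin.symm l).2
  have hf : spa v c + h = ∑ j, MvPolynomial.C (cc j) * ∏ i, MvPolynomial.X i ^ m j i := by
    rw [Fin.sum_univ_add]
    simp only [hm, hcc, Fin.append_left, Fin.append_right]
    rw [← h_eqZ h]
    rfl
  have hk : 0 < r + h.support.card := by omega
  exact rat_nd hk m cc hccne hid _ hf hpp

/-- Rationality of the Poincare series of `f` from the one of `f + ∑ y_i z_i`. -/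
theorem rat_down {ρ₀ : Type} [Finite ρ₀] {f : MvPolynomial ρ₀ ℤ} {ρ : Type} [Finite ρ] {m : ℕ}
    {F : MvPolynomial ρ ℤ} (h : Fol f ρ m F) (p : ℕ) [hp : Fact p.Prime] (hF : Rational p F) :
    Rational p f := by
  obtain ⟨D, A, hD, hDA⟩ := hF
  have hp0 : (p : ℂ) ≠ 0 := by exact_mod_cast hp.out.ne_zero
  set r : ℂ := ((p : ℂ)⁻¹) ^ m with hr
  have hr0 : r ≠ 0 := pow_ne_zero _ (inv_ne_zero hp0)
  have h1 := poin_fol h p
  rw [← hr] at h1
  set u : Polynomial ℂ := 1 - Polynomial.C ((p : ℂ)⁻¹) * Polynomial.X with hu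
  set w : Polynomial ℂ := 1 - Polynomial.C ((p : ℂ)⁻¹ * r) * Polynomial.X with hw
  have h2 : ((D * w : Polynomial ℂ) : PowerSeries ℂ) * PowerSeries.rescale r (poincare p f) =
      ((u * A : Polynomial ℂ) : PowerSeries ℂ) := by
    rw [Polynomial.coe_mul, Polynomial.coe_mul, ← hDA]
    linear_combination -(D : PowerSeries ℂ) * h1
  have h3 := congrArg (PowerSeries.rescale r⁻¹) h2
  rw [map_mul, Pool.Agent.W206.CU.rescale_coe, Pool.Agent.W206.CU.rescale_coe,
    PowerSeries.rescale_rescale] at h3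
  rw [mul_inv_cancel₀ hr0, PowerSeries.rescale_one] at h3
  refine ⟨_, _, ?_, h3⟩
  intro h4
  have hw0 : w ≠ 0 := by
    intro h5
    have := congrArg (Polynomial.eval 0) h5
    rw [hw] at this
    simp at this
  apply mul_ne_zero hD hw0
  have h5 := congrArg (fun P : Polynomial ℂ => P.comp (Polynomial.C r * Polynomial.X)) h4
  simp only [Polynomial.zero_comp, Polynomial.comp_assoc] at h5
  have h6 : ((Polynomial.C r⁻¹ * Polynomial.X : Polynomial ℂ)).comp
      (Polynomial.C r * Polynomial.X) = Polynomial.X := by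
    rw [Polynomial.mul_comp, Polynomial.C_comp, Polynomial.X_comp, ← mul_assoc, ← Polynomial.C_mul,
      inv_mul_cancel₀ hr0, Polynomial.C_1, one_mul]
  rw [h6, Polynomial.comp_X] at h5
  exact h5

end Pool.Agent.R852.CP
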